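import Mathlib

/-!
A transfinite recursion: choosing pairs `(x_i, y_i)` so that no `y_j` is in the rational span of
all the `x_i`.
-/

open Set Cardinal

namespace Q214.IS

theorem mk_span_lt {S : Set ℝ} (hS : #S < 𝔠) : #(Submodule.span ℚ S) < 𝔠 := by
  have h1 : Function.Surjective (fun l : S →₀ ℚ =>
      (⟨Finsupp.linearCombination ℚ (Subtype.val : S → ℝ) l,
        (Finsupp.mem_span_iff_linearCombination ℚ S _).2 ⟨l, rfl⟩⟩ : Submodule.span ℚ S)) := by
    rintro ⟨x, hx⟩
    obtain ⟨l, hl⟩ := (Finsupp.mem_span_iff_linearCombination ℚ S x).1 hx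
    exact ⟨l, Subtype.ext hl⟩
  refine (mk_le_of_surjective h1).trans_lt ?_
  rcases isEmpty_or_nonempty S with h | h
  · have : Subsingleton (S →₀ ℚ) := ⟨fun f g => Finsupp.ext fun a => isEmptyElim a⟩
    exact (le_one_iff_subsingleton.2 this).trans_lt (one_lt_aleph0.trans aleph0_lt_continuum)
  · rw [mk_finsupp_of_infinite']
    refine max_lt hS ?_
    simpa using aleph0_lt_continuum

theorem rec_choice {ι : Type} [LinearOrder ι] [WellFoundedLT ι] (hsmall : ∀ i : ι, #(Iio i) < 𝔠)
    (base : Set ℝ) (hbase : #(base) < 𝔠) (P : ι → ℝ → ℝ → Prop)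
    (hP : ∀ i (K : Submodule ℚ ℝ), base ⊆ K → #K < 𝔠 →
      ∃ x y, P i x y ∧ x ∉ K ∧ y ∉ Submodule.span ℚ (insert x (K : Set ℝ))) :
    ∃ x y : ι → ℝ, (∀ i, P i (x i) (y i)) ∧
      ∀ j, y j ∉ Submodule.span ℚ (base ∪ Set.range x) := by
  classical
  have hstep : ∀ (i : ι) (K : Submodule ℚ ℝ), ∃ r : ℝ × ℝ, base ⊆ K → #K < 𝔠 →
      (P i r.1 r.2 ∧ r.1 ∉ K ∧ r.2 ∉ Submodule.span ℚ (insert r.1 (K : Set ℝ))) := by
    intro i K
    by_cases h : base ⊆ K ∧ #K < 𝔠
    · obtain ⟨x, y, hxy⟩ := hP i K h.1 h.2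
      exact ⟨(x, y), fun _ _ => hxy⟩
    · exact ⟨(0, 0), fun h1 h2 => absurd ⟨h1, h2⟩ h⟩
  choose next hnext using hstep
  let Gfun : ∀ i : ι, (∀ k, k < i → ℝ × ℝ) → ℝ × ℝ := fun i prev =>
    next i (Submodule.span ℚ (base ∪ ((Set.range fun k : Iio i => (prev k.1 k.2).1) ∪
      (Set.range fun k : Iio i => (prev k.1 k.2).2))))
  let out : ι → ℝ × ℝ := WellFounded.fix (wellFounded_lt (α := ι)) Gfun
  let K : ι → Submodule ℚ ℝ := fun i =>
    Submodule.span ℚ (base ∪ ((Set.range fun k : Iio i => (out k.1).1) ∪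
      (Set.range fun k : Iio i => (out k.1).2)))
  have hout : ∀ i, out i = next i (K i) := fun i =>
    WellFounded.fix_eq (wellFounded_lt (α := ι)) Gfun i
  have hKbase : ∀ i, base ⊆ K i := fun i =>
    Set.Subset.trans Set.subset_union_left Submodule.subset_span
  have hKcard : ∀ i, #(K i) < 𝔠 := by
    intro i
    apply mk_span_lt
    have h1 : #(Set.range fun k : Iio i => (out k.1).1) < 𝔠 := mk_range_le.trans_lt (hsmall i)
    have h2 : #(Set.range fun k : Iio i => (out k.1).2) < 𝔠 := mk_range_le.trans_lt (hsmall i)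
    exact (mk_union_le _ _).trans_lt (add_lt_of_lt aleph0_le_continuum hbase
      ((mk_union_le _ _).trans_lt (add_lt_of_lt aleph0_le_continuum h1 h2)))
  have hx : ∀ i, P i (out i).1 (out i).2 ∧ (out i).1 ∉ K i ∧
      (out i).2 ∉ Submodule.span ℚ (insert (out i).1 (K i : Set ℝ)) := by
    intro i
    have := hnext i (K i) (hKbase i) (hKcard i)
    rw [← hout i] at this
    exact this
  have hKx : ∀ {k i}, k < i → (out k).1 ∈ K i := fun {k i} h =>
    Submodule.subset_span (Or.inr (Or.inl ⟨⟨k, h⟩, rfl⟩))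
  have hKy : ∀ {k i}, k < i → (out k).2 ∈ K i := fun {k i} h =>
    Submodule.subset_span (Or.inr (Or.inr ⟨⟨k, h⟩, rfl⟩))
  refine ⟨fun i => (out i).1, fun i => (out i).2, fun i => (hx i).1, ?_⟩
  intro j hj
  -- finite support
  have hfin : ∃ F : Finset ι, (out j).2 ∈ Submodule.span ℚ (base ∪ ((fun i => (out i).1) '' (F : Set ι))) := by
    obtain ⟨T, hT1, hT2⟩ := Submodule.mem_span_finite_of_mem_span hj
    have hc : ∀ z : ℝ, ∃ i : Option ι, z ∈ T → (z ∈ base ∨ ∃ k, i = some k ∧ (out k).1 = z) := by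
      intro z
      by_cases hz : z ∈ T
      · rcases hT1 hz with h | ⟨k, hk⟩
        · exact ⟨none, fun _ => Or.inl h⟩
        · exact ⟨some k, fun _ => Or.inr ⟨k, rfl, hk⟩⟩
      · exact ⟨none, fun h => absurd h hz⟩
    choose f hf using hc
    refine ⟨(T.image f).eraseNone, Submodule.span_mono ?_ hT2⟩
    intro z hz
    rcases hf z hz with h | ⟨k, hk1, hk2⟩
    · exact Or.inl h
    · refine Or.inr ⟨k, ?_, hk2⟩
      rw [Finset.mem_coe, Finset.mem_eraseNone, Finset.mem_image]
      exact ⟨z, hz, hk1⟩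
  obtain ⟨F, hF⟩ := hfin
  induction F using Finset.induction_on_max with
  | empty =>
    rw [Finset.coe_empty, Set.image_empty, Set.union_empty] at hF
    have h1 : Submodule.span ℚ base ≤ K j := Submodule.span_mono Set.subset_union_left
    exact (hx j).2.2 (Submodule.subset_span (Set.mem_insert_of_mem _ (h1 hF)))
  | insert m F hm ih =>
    have hset : base ∪ ((fun i => (out i).1) '' ((insert m F : Finset ι) : Set ι)) =
        insert (out m).1 (base ∪ ((fun i => (out i).1) '' (F : Set ι))) := by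
      rw [Finset.coe_insert, Set.image_insert_eq]
      ext z
      simp only [Set.mem_union, Set.mem_insert_iff]
      tauto
    have hle : ∀ i, m ≤ i → Submodule.span ℚ (base ∪ ((fun i => (out i).1) '' (F : Set ι))) ≤ K i := by
      intro i hi
      rw [Submodule.span_le]
      rintro z (hz | ⟨k, hk, rfl⟩)
      · exact hKbase i hz
      · exact hKx ((hm k hk).trans_le hi)
    rw [hset, Submodule.mem_span_insert] at hF
    obtain ⟨a, z, hz, hyz⟩ := hF
    rcases lt_or_ge j m with hjm | hjm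
    · have ha : a = 0 := by
        by_contra ha
        apply (hx m).2.1
        have h1 : a • (out m).1 = (out j).2 - z := by rw [hyz]; ring
        have h2 : (out m).1 = a⁻¹ • ((out j).2 - z) := by
          rw [← h1, smul_smul, inv_mul_cancel₀ ha, one_smul]
        rw [h2]
        exact (K m).smul_mem _ ((K m).sub_mem (hKy hjm) (hle m le_rfl hz))
      rw [ha, zero_smul, zero_add] at hyz
      exact ih (by rw [hyz]; exact hz)
    · apply (hx j).2.2
      rw [hyz]
      apply Submodule.add_mem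
      · apply Submodule.smul_mem
        rcases hjm.lt_or_eq with h | h
        · exact Submodule.subset_span (Set.mem_insert_of_mem _ (hKx h))
        · rw [h]
          exact Submodule.subset_span (Set.mem_insert _ _)
      · exact Submodule.subset_span (Set.mem_insert_of_mem _ (hle j hjm hz))

end Q214.IS
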