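import Mathlib
import Pool.Agent.Q214.RS.Basic

/-!
For an integer sequence `b` with `b_n √2 → 0 (mod 1)`: a lacunary sequence `t` in `ℤ + ℤ√2` such that
whenever `b_n y_Z → 0` along a set of indices, where `y_Z` is the sum of the `t_i` with `i ∈ Z`,
then also `b_n y_{Z'} → 0` along this set for all `Z' ⊆ Z`.
-/

open Filter Topology

namespace Q214.IS

open Q214.RS (nn nn_nonneg nn_le_abs nn_add nn_sub nn_add_int nn_neg nn_zero nn_int_add)

theorem nn_int_mul (k : ℤ) (x : ℝ) : nn (k * x) ≤ |(k : ℝ)| * nn x := by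
  have h : (k : ℝ) * x = ((k * round x : ℤ) : ℝ) + k * (x - round x) := by
    push_cast; ring
  rw [h, nn_int_add]
  refine (nn_le_abs _).trans ?_
  rw [abs_mul]
  rfl

theorem small_mult {δ : ℝ} (hδ : 0 < δ) : ∃ q p : ℤ, 0 < q * √2 - p ∧ q * √2 - p < δ := by
  have h1 : Dense (AddSubgroup.closure {√2, 1} : Set ℝ) := by
    rw [dense_addSubgroupClosure_pair_iff, div_one]
    exact irrational_sqrt_two
  obtain ⟨z, hz1, hz2⟩ := h1.exists_mem_open isOpen_Ioo (Set.nonempty_Ioo.2 hδ)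
  obtain ⟨m, n, hmn⟩ := AddSubgroup.mem_closure_pair.1 hz1
  refine ⟨m, -n, ?_⟩
  have : (m : ℝ) * √2 - ((-n : ℤ) : ℝ) = z := by
    rw [← hmn, zsmul_eq_mul, zsmul_eq_mul]
    push_cast
    ring
  rw [this]
  exact hz2

section

variable {b : ℕ → ℤ}

theorem step (hb : Tendsto (fun n => nn (b n * √2)) atTop (𝓝 0)) (l Q n : ℕ) (t : ℝ) (ht : 0 < t) :
    ∃ r : ℕ × ℤ × ℤ, n < r.1 ∧ (∀ m, r.1 ≤ m → Q * nn (b m * √2) ≤ (1 / 2) ^ l) ∧
      0 < r.2.1 * √2 - r.2.2 ∧ r.2.1 * √2 - r.2.2 ≤ t / 4 ∧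
      ∀ m, m ≤ r.1 → |(b m : ℝ)| * (r.2.1 * √2 - r.2.2) ≤ (1 / 2) ^ l := by
  have h1 : Tendsto (fun n => (Q : ℝ) * nn (b n * √2)) atTop (𝓝 0) := by
    have := hb.const_mul (Q : ℝ)
    rwa [mul_zero] at this
  have h2 := h1.eventually (gt_mem_nhds (by positivity : (0 : ℝ) < (1 / 2) ^ l))
  obtain ⟨N, hN⟩ := eventually_atTop.1 h2
  set n' := max N (n + 1) with hn'
  set Sg : ℝ := 1 + ∑ m ∈ Finset.range (n' + 1), |(b m : ℝ)| with hSg
  have hSpos : 0 < Sg := by
    have : 0 ≤ ∑ m ∈ Finset.range (n' + 1), |(b m : ℝ)| := Finset.sum_nonneg (fun _ _ => abs_nonneg _)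
    linarith
  obtain ⟨q, p, hq1, hq2⟩ := small_mult (δ := min (t / 4) ((1 / 2) ^ l / Sg))
    (lt_min (by positivity) (by positivity))
  refine ⟨⟨n', q, p⟩, ?_, ?_, hq1, ?_, ?_⟩
  · exact lt_of_lt_of_le (Nat.lt_succ_self n) (le_max_right _ _)
  · intro m hm
    exact (hN m ((le_max_left _ _).trans hm)).le
  · exact hq2.le.trans (min_le_left _ _)
  · intro m hm
    have h3 : |(b m : ℝ)| ≤ Sg := by
      have := Finset.single_le_sum (f := fun m => |(b m : ℝ)|) (s := Finset.range (n' + 1))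
        (fun _ _ => abs_nonneg _) (Finset.mem_range.2 (Nat.lt_succ_of_le hm))
      linarith
    have h4 : (q : ℝ) * √2 - p ≤ (1 / 2) ^ l / Sg := hq2.le.trans (min_le_right _ _)
    calc |(b m : ℝ)| * (q * √2 - p) ≤ Sg * ((1 / 2) ^ l / Sg) :=
          mul_le_mul h3 h4 hq1.le hSpos.le
      _ = (1 / 2) ^ l := by field_simp

/-- the data of the construction -/
theorem exists_data (hb : Tendsto (fun n => nn (b n * √2)) atTop (𝓝 0)) :
    ∃ (n : ℕ → ℕ) (q p : ℕ → ℤ), StrictMono n ∧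
      (∀ l m, n l ≤ m → (∑ i ∈ Finset.range l, |(q i : ℝ)|) * nn (b m * √2) ≤ (1 / 2) ^ l) ∧
      (∀ l, 0 < q l * √2 - p l) ∧ (q 0 * √2 - p 0 ≤ 1 / 4) ∧
      (∀ l, q (l + 1) * √2 - p (l + 1) ≤ (q l * √2 - p l) / 4) ∧
      (∀ l m, m ≤ n l → |(b m : ℝ)| * (q l * √2 - p l) ≤ (1 / 2) ^ l) := by
  classical
  have hstep : ∀ (l Q n : ℕ) (t : ℝ), ∃ r : ℕ × ℤ × ℤ, 0 < t → (n < r.1 ∧
      (∀ m, r.1 ≤ m → Q * nn (b m * √2) ≤ (1 / 2) ^ l) ∧
      0 < r.2.1 * √2 - r.2.2 ∧ r.2.1 * √2 - r.2.2 ≤ t / 4 ∧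
      ∀ m, m ≤ r.1 → |(b m : ℝ)| * (r.2.1 * √2 - r.2.2) ≤ (1 / 2) ^ l) := by
    intro l Q n t
    by_cases ht : 0 < t
    · obtain ⟨r, hr⟩ := step hb l Q n t ht
      exact ⟨r, fun _ => hr⟩
    · exact ⟨(0, 0, 0), fun h => absurd h ht⟩
  choose F hF using hstep
  -- state before step `l` : (Q, n, t)
  let nxt : ℕ → ℕ × ℕ × ℝ → ℕ × ℕ × ℝ := fun l s =>
    (s.1 + (F l s.1 s.2.1 s.2.2).2.1.natAbs, (F l s.1 s.2.1 s.2.2).1,
      (F l s.1 s.2.1 s.2.2).2.1 * √2 - (F l s.1 s.2.1 s.2.2).2.2)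
  let σ : ℕ → ℕ × ℕ × ℝ := fun l => Nat.rec (0, 0, 1) nxt l
  have hσ : ∀ l, σ (l + 1) = nxt l (σ l) := fun l => rfl
  let R : ℕ → ℕ × ℤ × ℤ := fun l => F l (σ l).1 (σ l).2.1 (σ l).2.2
  have ht : ∀ l, 0 < (σ l).2.2 := by
    intro l
    induction l with
    | zero => exact one_pos
    | succ l ih => exact (hF l (σ l).1 (σ l).2.1 (σ l).2.2 ih).2.2.1
  have hR := fun l => hF l (σ l).1 (σ l).2.1 (σ l).2.2 (ht l)
  have hQ : ∀ l, ((σ l).1 : ℝ) = ∑ i ∈ Finset.range l, |((R i).2.1 : ℝ)| := by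
    intro l
    induction l with
    | zero => simp [σ]
    | succ l ih =>
      rw [Finset.sum_range_succ, ← ih]
      show (((σ l).1 + (R l).2.1.natAbs : ℕ) : ℝ) = _
      push_cast
      rw [Nat.cast_natAbs, Int.cast_abs]
  refine ⟨fun l => (R l).1, fun l => (R l).2.1, fun l => (R l).2.2, ?_, ?_, ?_, ?_, ?_, ?_⟩
  · exact strictMono_nat_of_lt_succ fun l => (hR (l + 1)).1
  · intro l m hm
    rw [← hQ l]
    exact (hR l).2.1 m hm
  · exact fun l => (hR l).2.2.1
  · exact (hR 0).2.2.2.1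
  · exact fun l => (hR (l + 1)).2.2.2.1
  · exact fun l => (hR l).2.2.2.2

end

/-- subsums -/
noncomputable def ys (t : ℕ → ℝ) (Z : Set ℕ) : ℝ := ∑' i, Z.indicator t i

section

variable {t : ℕ → ℝ} (ht0 : ∀ i, 0 < t i) (ht1 : ∀ i, t (i + 1) ≤ t i / 4)

include ht0 ht1

theorem t_geom (i j : ℕ) : t (j + i) ≤ t i * (1 / 4) ^ j := by
  induction j with
  | zero => simp
  | succ j ih =>
    have h := ht1 (j + i)
    rw [show j + 1 + i = j + i + 1 by ring, pow_succ]
    linarith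

theorem ind_nonneg (Z : Set ℕ) (i : ℕ) : 0 ≤ Z.indicator t i :=
  Set.indicator_nonneg (fun i _ => (ht0 i).le) i

theorem ind_le (Z : Set ℕ) (i : ℕ) : Z.indicator t i ≤ t i :=
  Set.indicator_le_self' (fun i _ => (ht0 i).le) i

theorem t_summable (m : ℕ) : Summable fun i => t (i + m) :=
  Summable.of_nonneg_of_le (fun i => (ht0 _).le) (fun i => t_geom ht0 ht1 m i)
    ((summable_geometric_of_lt_one (by norm_num) (by norm_num)).mul_left _)

theorem ind_summable (Z : Set ℕ) (m : ℕ) : Summable fun i => Z.indicator t (i + m) :=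
  Summable.of_nonneg_of_le (fun i => ind_nonneg ht0 ht1 Z _) (fun i => ind_le ht0 ht1 Z _)
    (t_summable ht0 ht1 m)

theorem tail_le (Z : Set ℕ) (m : ℕ) : ∑' i, Z.indicator t (i + (m + 1)) ≤ t m / 3 := by
  have h1 : ∀ i, Z.indicator t (i + (m + 1)) ≤ t m * (1 / 4) * (1 / 4) ^ i := by
    intro i
    refine (ind_le ht0 ht1 Z _).trans ?_
    have := t_geom ht0 ht1 m (i + 1)
    rw [show i + (m + 1) = i + 1 + m by ring]
    refine this.trans (le_of_eq ?_)
    rw [pow_succ]; ring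
  refine (Summable.tsum_le_tsum h1 (ind_summable ht0 ht1 Z (m + 1))
    ((summable_geometric_of_lt_one (by norm_num) (by norm_num)).mul_left _)).trans (le_of_eq ?_)
  rw [tsum_mul_left, tsum_geometric_of_lt_one (by norm_num) (by norm_num)]
  ring

theorem tail_nonneg (Z : Set ℕ) (m : ℕ) : 0 ≤ ∑' i, Z.indicator t (i + m) :=
  tsum_nonneg fun i => ind_nonneg ht0 ht1 Z _

theorem ys_split (Z : Set ℕ) (l : ℕ) : ys t Z = ∑ i ∈ Finset.range l, Z.indicator t i +
    Z.indicator t l + ∑' i, Z.indicator t (i + (l + 1)) := by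
  unfold ys
  have h := (ind_summable ht0 ht1 Z 0).sum_add_tsum_nat_add (l + 1)
  simp only [add_zero] at h
  rw [← h, Finset.sum_range_succ]

theorem ys_lt {Z W : Set ℕ} {l : ℕ} (hlt : ∀ i < l, (i ∈ Z ↔ i ∈ W)) (hZ : l ∈ Z) (hW : l ∉ W) :
    ys t W < ys t Z := by
  rw [ys_split ht0 ht1 Z l, ys_split ht0 ht1 W l]
  have h1 : ∑ i ∈ Finset.range l, Z.indicator t i = ∑ i ∈ Finset.range l, W.indicator t i := by
    apply Finset.sum_congr rfl
    intro i hi
    rw [Finset.mem_range] at hi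
    by_cases h : i ∈ Z
    · rw [Set.indicator_of_mem h, Set.indicator_of_mem ((hlt i hi).1 h)]
    · rw [Set.indicator_of_notMem h, Set.indicator_of_notMem (fun h' => h ((hlt i hi).2 h'))]
  rw [h1, Set.indicator_of_mem hZ, Set.indicator_of_notMem hW]
  have h2 := tail_le ht0 ht1 W l
  have h3 := tail_nonneg ht0 ht1 Z (l + 1)
  have h4 := ht0 l
  linarith

theorem ys_injective : Function.Injective (ys t) := by
  classical
  intro Z W h
  by_contra hne
  have hex : ∃ i, ¬ (i ∈ Z ↔ i ∈ W) := by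
    by_contra hall
    push Not at hall
    exact hne (Set.ext hall)
  have h1 := Nat.find_spec hex
  have h2 : ∀ i < Nat.find hex, (i ∈ Z ↔ i ∈ W) := fun i hi => by
    have := Nat.find_min hex hi
    tauto
  by_cases hZ : Nat.find hex ∈ Z
  · have hW : Nat.find hex ∉ W := by tauto
    exact absurd h (ys_lt ht0 ht1 h2 hZ hW).ne'
  · have hW : Nat.find hex ∈ W := by tauto
    exact absurd h (ys_lt ht0 ht1 (fun i hi => (h2 i hi).symm) hW hZ).ne

end

/-- `b_n y → 0 (mod 1)` along `B` -/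
def Null (b : ℕ → ℤ) (B : Set ℕ) (y : ℝ) : Prop :=
  ∀ ε > 0, ∃ N, ∀ n ≥ N, n ∈ B → nn (b n * y) < ε

theorem exists_t {b : ℕ → ℤ} (hb : Tendsto (fun n => nn (b n * √2)) atTop (𝓝 0)) :
    ∃ t : ℕ → ℝ, (∀ i, 0 < t i) ∧ (∀ i, t (i + 1) ≤ t i / 4) ∧
      ∀ Z' Z : Set ℕ, Z' ⊆ Z → ∀ B, Null b B (ys t Z) → Null b B (ys t Z') := by
  classical
  obtain ⟨n, q, p, hn, h1, h2, -, h4, h5⟩ := exists_data hb
  set t : ℕ → ℝ := fun l => q l * √2 - p l with ht
  have ht0 : ∀ i, 0 < t i := h2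
  have ht1 : ∀ i, t (i + 1) ≤ t i / 4 := h4
  refine ⟨t, ht0, ht1, ?_⟩
  -- the main estimate
  have key : ∀ (Z : Set ℕ) (l m : ℕ), n l ≤ m → m < n (l + 1) →
      nn (b m * ys t Z - b m * Z.indicator t l) ≤ 2 * (1 / 2) ^ l := by
    intro Z l m hlm hml
    rw [ys_split ht0 ht1 Z l]
    have e : (b m : ℝ) * (∑ i ∈ Finset.range l, Z.indicator t i + Z.indicator t l +
        ∑' i, Z.indicator t (i + (l + 1))) - b m * Z.indicator t l =
        ∑ i ∈ Finset.range l, b m * Z.indicator t i + b m * ∑' i, Z.indicator t (i + (l + 1)) := by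
      rw [← Finset.mul_sum]; ring
    rw [e]
    refine (nn_add _ _).trans ?_
    have e1 : nn (∑ i ∈ Finset.range l, (b m : ℝ) * Z.indicator t i) ≤ (1 / 2) ^ l := by
      refine le_trans ?_ (h1 l m hlm)
      rw [Finset.sum_mul]
      have hsub : ∀ s : Finset ℕ, nn (∑ i ∈ s, (b m : ℝ) * Z.indicator t i) ≤
          ∑ i ∈ s, |(q i : ℝ)| * nn (b m * √2) := by
        intro s
        induction s using Finset.induction_on with
        | empty => simp [nn_zero]
        | insert a s ha ih =>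
          rw [Finset.sum_insert ha, Finset.sum_insert ha]
          refine (nn_add _ _).trans (add_le_add ?_ ih)
          by_cases hZ : a ∈ Z
          · rw [Set.indicator_of_mem hZ]
            have e2 : (b m : ℝ) * t a = q a * (b m * √2) + ((-(b m * p a) : ℤ) : ℝ) := by
              rw [ht]; push_cast; ring
            rw [e2, nn_add_int]
            exact nn_int_mul _ _
          · rw [Set.indicator_of_notMem hZ, mul_zero, nn_zero]
            exact mul_nonneg (abs_nonneg _) (nn_nonneg _)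
      exact hsub _
    have e3 : nn ((b m : ℝ) * ∑' i, Z.indicator t (i + (l + 1))) ≤ (1 / 2) ^ l := by
      refine (nn_le_abs _).trans ?_
      rw [abs_mul, abs_of_nonneg (tail_nonneg ht0 ht1 Z (l + 1)), ← tsum_mul_left]
      have e4 : ∀ i, |(b m : ℝ)| * Z.indicator t (i + (l + 1)) ≤ (1 / 2) ^ (l + 1) * (1 / 2) ^ i := by
        intro i
        have e5 : m ≤ n (i + (l + 1)) := hml.le.trans (hn.monotone (by omega))
        calc |(b m : ℝ)| * Z.indicator t (i + (l + 1)) ≤ |(b m : ℝ)| * t (i + (l + 1)) :=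
              mul_le_mul_of_nonneg_left (ind_le ht0 ht1 Z _) (abs_nonneg _)
          _ ≤ (1 / 2) ^ (i + (l + 1)) := h5 _ _ e5
          _ = _ := by rw [pow_add]; ring
      refine (Summable.tsum_le_tsum e4 ((ind_summable ht0 ht1 Z (l + 1)).mul_left _)
        ((summable_geometric_of_lt_one (by norm_num) (by norm_num)).mul_left _)).trans (le_of_eq ?_)
      rw [tsum_mul_left, tsum_geometric_of_lt_one (by norm_num) (by norm_num), pow_succ]
      ring
    linarith
  have key2 : ∀ (Z' Z : Set ℕ), Z' ⊆ Z → ∀ l m : ℕ, n l ≤ m → m < n (l + 1) →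
      nn (b m * ys t Z') ≤ nn (b m * ys t Z) + 4 * (1 / 2) ^ l := by
    intro Z' Z hZ l m hlm hml
    have k1 := key Z' l m hlm hml
    have k2 := key Z l m hlm hml
    have k3 : nn (b m * ys t Z') ≤ nn (b m * ys t Z' - b m * Z'.indicator t l) +
        nn (b m * Z'.indicator t l) := by
      have := nn_add (b m * ys t Z' - b m * Z'.indicator t l) (b m * Z'.indicator t l)
      rwa [sub_add_cancel] at this
    have k4 : nn (b m * Z.indicator t l) ≤ nn (b m * ys t Z) +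
        nn (b m * ys t Z - b m * Z.indicator t l) := by
      have := nn_sub (b m * ys t Z) (b m * ys t Z - b m * Z.indicator t l)
      rwa [sub_sub_cancel] at this
    have k5 : nn (b m * Z'.indicator t l) ≤ nn (b m * Z.indicator t l) := by
      by_cases h : l ∈ Z'
      · rw [Set.indicator_of_mem h, Set.indicator_of_mem (hZ h)]
      · rw [Set.indicator_of_notMem h, mul_zero, nn_zero]
        exact nn_nonneg _
    linarith
  intro Z' Z hZ B hB ε hε
  obtain ⟨N, hN⟩ := hB (ε / 2) (by positivity)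
  obtain ⟨L, hL⟩ := exists_pow_lt_of_lt_one (by positivity : 0 < ε / 8) (by norm_num : (1 / 2 : ℝ) < 1)
  refine ⟨max N (n L), fun m hm hmB => ?_⟩
  have hm1 : N ≤ m := (le_max_left _ _).trans hm
  have hm2 : n L ≤ m := (le_max_right _ _).trans hm
  have hex : ∃ l, m < n (l + 1) := ⟨m, lt_of_lt_of_le (Nat.lt_succ_self m) (hn.id_le (m + 1))⟩
  set l := Nat.find hex with hl
  have hl1 : m < n (l + 1) := Nat.find_spec hex
  have hl2 : L ≤ l := by
    by_contra hc
    push Not at hc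
    have : n (l + 1) ≤ n L := hn.monotone (by omega)
    omega
  have hl3 : n l ≤ m := by
    rcases Nat.eq_zero_or_pos l with h0 | h0
    · have : L = 0 := by omega
      rw [h0, ← this]; exact hm2
    · have := Nat.find_min hex (m := l - 1) (by omega)
      push Not at this
      rwa [Nat.sub_add_cancel h0] at this
  have k1 := key2 Z' Z hZ l m hl3 hl1
  have k2 := hN m hm1 hmB
  have k3 : (1 / 2 : ℝ) ^ l ≤ (1 / 2) ^ L := pow_le_pow_of_le_one (by norm_num) (by norm_num) hl2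
  linarith

end Q214.IS
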